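import Pool.Agent.Helper33.DP.Defs
import Pool.Agent.Helper3.DW.Defs

/-!
# Statement sheet (MP_fcb106_co, polynomial upper bound)
-/

set_option autoImplicit false

namespace Pool.Agent.Helper33.DP

open Finset

/-! ### part 1: analysis -/

/-- ML, the minimax lemma. -/
def ST_ML : Prop :=
  ∀ (ι V : Type) [Fintype ι] [Nonempty ι] [AddCommGroup V] [Module ℝ V]
    (Z : Set V) (φ : ι → V → ℝ) (β β' : ℝ), Convex ℝ Z → (∀ i, ConvexOn ℝ Z (φ i)) → β < β' →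
    (∀ θ : ι → ℝ, (∀ i, 0 ≤ θ i) → ∑ i, θ i = 1 → ∃ z ∈ Z, ∑ i, θ i * φ i z ≤ β) →
    ∃ z ∈ Z, ∀ i, φ i z < β'

/-- DS1 (Birkhoff). -/
def ST_DS1 : Prop :=
  ∀ (w : ℕ) (G : Gr w) (μ D : Fin w → Fin w → ℝ) (β : ℝ), Bdd G μ β → DS G D →
    ∑ a, ∑ b, D a b * (μ a b)⁻¹ ≤ β

/-- DS2: products. -/
def ST_DS2 : Prop :=
  ∀ (w : ℕ) (G₁ G₂ : Gr w) (D₁ D₂ : Fin w → Fin w → ℝ), DS G₁ D₁ → DS G₂ D₂ →
    DS (comp G₁ G₂) (fun a b => ∑ x, D₁ a x * D₂ x b)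

/-- DS3: convex combinations of perfect matchings. -/
def ST_DS3 : Prop :=
  ∀ (w : ℕ) (G : Gr w) (θ : Equiv.Perm (Fin w) → ℝ), (∀ σ, 0 ≤ θ σ) → (∑ σ, θ σ = 1) →
    (∀ σ, ¬ PM G σ → θ σ = 0) →
    DS G (fun a b => ∑ σ, if σ a = b then θ σ else 0) ∧
    ∀ f : Fin w → Fin w → ℝ, ∑ σ, θ σ * ∑ i, f i (σ i) =
      ∑ a, ∑ b, (∑ σ, if σ a = b then θ σ else 0) * f a b

/-- DS4: a doubly stochastic matrix with large entries. -/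
def ST_DS4 : Prop :=
  ∀ (w : ℕ) (G : Gr w), 1 ≤ w → IsCore G →
    ∃ D, DS G D ∧ ∀ a b, (a, b) ∈ G → 1 / (w : ℝ) ^ 2 ≤ D a b

/-- T1, the fractional closure theorem. -/
def ST_T1 : Prop :=
  ∀ (w : ℕ) (G G₁ G₂ : Gr w) (μ : Fin w → Fin w → ℝ) (β β' : ℝ), 1 ≤ w → IsCore G₁ → IsCore G₂ →
    comp G₁ G₂ ⊆ G → Bdd G μ β → β < β' →
    ∃ z : Fin w → Fin w → Fin w → ℝ,
      (∀ a x b, 0 ≤ z a x b) ∧
      (∀ a x b, ¬ ((a, x) ∈ G₁ ∧ (x, b) ∈ G₂) → z a x b = 0) ∧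
      (∀ a b, (a, b) ∈ comp G₁ G₂ → ∑ x, z a x b = μ a b) ∧
      Bdd G₁ (fun a x => ∑ b, z a x b) β' ∧ Bdd G₂ (fun x b => ∑ a, z a x b) β'

/-- STR, the structure lemma. -/
def ST_STR : Prop :=
  ∀ (w : ℕ) (G G₁ G₂ : Gr w), IsCore G₁ → IsCore G₂ → comp G₁ G₂ ⊆ G →
    (G₁.card ≤ G.card ∧ (G₁.card = G.card → comp G₁ G₂ = G ∧
      ∀ a x b, (a, b) ∈ G → (x, b) ∈ G₂ → (a, x) ∈ G₁)) ∧
    (G₂.card ≤ G.card ∧ (G₂.card = G.card → comp G₁ G₂ = G ∧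
      ∀ a x b, (a, b) ∈ G → (a, x) ∈ G₁ → (x, b) ∈ G₂))

/-- RND, rounding of one vector. -/
def ST_RND : Prop :=
  ∀ (ι : Type) [Fintype ι] [DecidableEq ι] (s : Finset ι) (z : ι → ℝ) (n : ℕ),
    (∀ i ∈ s, 0 ≤ z i) → ∑ i ∈ s, z i = n →
    ∃ z' : ι → ℕ, (∀ i, i ∉ s → z' i = 0) ∧ ∑ i ∈ s, z' i = n ∧ ∀ i ∈ s, |(z' i : ℝ) - z i| ≤ 1

/-- RND3, rounding of a routing. -/
def ST_RND3 : Prop :=
  ∀ (w : ℕ) (G₁ G₂ : Gr w) (μ : Fin w → Fin w → ℕ) (z : Fin w → Fin w → Fin w → ℝ),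
    (∀ a x b, 0 ≤ z a x b) →
    (∀ a x b, ¬ ((a, x) ∈ G₁ ∧ (x, b) ∈ G₂) → z a x b = 0) →
    (∀ a b, (a, b) ∈ comp G₁ G₂ → ∑ x, z a x b = (μ a b : ℝ)) →
    ∃ z' : Fin w → Fin w → Fin w → ℕ, Route G₁ G₂ μ z' ∧
      (∀ a x b, |(z' a x b : ℝ) - z a x b| ≤ 1) ∧
      ∀ a b, ∑ x, ((z' a x b : ℝ) - z a x b) = 0

/-- BDR, perturbation of the potential. -/
def ST_BDR : Prop :=
  ∀ (w : ℕ) (G : Gr w) (ρ ρ' : Fin w → Fin w → ℝ) (β d : ℝ), IsCore G → 0 ≤ d → 0 < β →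
    d * β < 1 → Bdd G ρ β → (∀ a b, (a, b) ∈ G → ρ a b - d ≤ ρ' a b) →
    Bdd G ρ' (β / (1 - d * β))

/-- ERU, the entries of a small error matrix. -/
def ST_ERU : Prop :=
  ∀ (w : ℕ) (δ : Fin w → Fin w → ℝ) (E : ℝ), 0 ≤ E → ErrLe δ E → ∀ a b, |δ a b| ≤ 4 * w * E

/-- ERS, the step of the error estimate (columns). -/
def ST_ERS : Prop :=
  ∀ (w : ℕ) (G₂ : Gr w) (P δ : Fin w → Fin w → ℝ) (ν : Fin w → Fin w → Fin w → ℝ) (p E : ℝ),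
    0 ≤ p → 1 ≤ E * p ^ 2 → DS G₂ P → (∀ x b, (x, b) ∈ G₂ → p ≤ P x b) → ErrLe δ E →
    (∀ a x b, |ν a x b| ≤ 1) → (∀ a x b, (x, b) ∉ G₂ → ν a x b = 0) →
    (∀ a b, ∑ x, ν a x b = 0) →
    ErrLe (fun a x => ∑ b, δ a b * P x b + ∑ b, ν a x b) E

/-- ERSR, the step of the error estimate (rows). -/
def ST_ERSR : Prop :=
  ∀ (w : ℕ) (G₁ : Gr w) (Q δ : Fin w → Fin w → ℝ) (ν : Fin w → Fin w → Fin w → ℝ) (p E : ℝ),
    0 ≤ p → 1 ≤ E * p ^ 2 → DS G₁ Q → (∀ a x, (a, x) ∈ G₁ → p ≤ Q a x) → ErrLe δ E →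
    (∀ a x b, |ν a x b| ≤ 1) → (∀ a x b, (a, x) ∉ G₁ → ν a x b = 0) →
    (∀ a b, ∑ x, ν a x b = 0) →
    ErrLe (fun x b => ∑ a, Q a x * δ a b + ∑ a, ν a x b) E

/-- PEX, the choice of the routing matrix. -/
def ST_PEX : Prop :=
  ∀ (w : ℕ) (G₂ : Gr w) (s : Fin w → ℝ) (β β' : ℝ), 1 ≤ w → IsCore G₂ → (∀ b, 0 < s b) →
    ∑ e ∈ G₂, (s e.2)⁻¹ ≤ β → β / (1 - yy w) < β' →
    ∃ P, DS G₂ P ∧ (∀ x b, (x, b) ∈ G₂ → pp w ≤ P x b) ∧ Bdd G₂ (fun x b => P x b * s b) β'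

/-- CLM, the column sums in a block. -/
def ST_CLM : Prop :=
  ∀ (w : ℕ) (G G₁ G₂ : Gr w) (μ : Fin w → Fin w → ℝ) (β : ℝ), IsCore G₁ → IsCore G₂ →
    comp G₁ G₂ = G → (∀ a x b, (a, b) ∈ G → (x, b) ∈ G₂ → (a, x) ∈ G₁) →
    (∀ a b, 0 ≤ μ a b) → Bdd G μ β → ∑ e ∈ G₂, (∑ a, μ a e.2)⁻¹ ≤ β

/-- BGP, the mixed state. -/
def ST_BGP : Prop :=
  ∀ (w : ℕ) (G G₁ G₂ : Gr w) (μ P : Fin w → Fin w → ℝ) (β : ℝ), comp G₁ G₂ ⊆ G →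
    (∀ a b, (a, b) ∉ G → μ a b = 0) → DS G₂ P → Bdd G μ β →
    Bdd G₁ (fun a x => ∑ b, μ a b * P x b) β

/-- GT, transposition of good states. -/
def ST_GT : Prop :=
  ∀ (w : ℕ) (G : Gr w) (μ : Fin w → Fin w → ℕ), GoodS G μ → GoodS (tr G) (fun a b => μ b a)

/-- GB, what a good state gives. -/
def ST_GB : Prop :=
  ∀ (w : ℕ) (G : Gr w) (μ : Fin w → Fin w → ℕ), 1 ≤ w → IsCore G → GoodS G μ →
    (∀ a b, (a, b) ∈ G → 1 ≤ μ a b) ∧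
    Bdd G (fun a b => (μ a b : ℝ)) (bet w G.card / (1 - yy w))

/-- The conclusion of a step. -/
def StepC {w : ℕ} (G₁ G₂ : Gr w) (μ : Fin w → Fin w → ℕ) : Prop :=
  ∃ z, Route G₁ G₂ μ z ∧ GoodS G₁ (fun a x => ∑ b, z a x b) ∧ GoodS G₂ (fun x b => ∑ a, z a x b)

/-- Case A. -/
def ST_A : Prop :=
  ∀ (w : ℕ) (G G₁ G₂ : Gr w) (μ : Fin w → Fin w → ℕ), 1 ≤ w → IsCore G → IsCore G₁ → IsCore G₂ →
    comp G₁ G₂ ⊆ G → GoodS G μ → G₁.card < G.card → G₂.card < G.card → StepC G₁ G₂ μ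

/-- Case B. -/
def ST_B : Prop :=
  ∀ (w : ℕ) (G G₁ G₂ : Gr w) (μ : Fin w → Fin w → ℕ), 1 ≤ w → IsCore G → IsCore G₁ → IsCore G₂ →
    comp G₁ G₂ ⊆ G → GoodS G μ → G₁.card = G.card → G₂.card < G.card → StepC G₁ G₂ μ

/-- Case B transposed. -/
def ST_BT : Prop :=
  ∀ (w : ℕ) (G G₁ G₂ : Gr w) (μ : Fin w → Fin w → ℕ), 1 ≤ w → IsCore G → IsCore G₁ → IsCore G₂ →
    comp G₁ G₂ ⊆ G → GoodS G μ → G₁.card < G.card → G₂.card = G.card → StepC G₁ G₂ μ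

/-- Case C. -/
def ST_C : Prop :=
  ∀ (w : ℕ) (G G₁ G₂ : Gr w) (μ : Fin w → Fin w → ℕ), 1 ≤ w → IsCore G → IsCore G₁ → IsCore G₂ →
    comp G₁ G₂ ⊆ G → GoodS G μ → G₁.card = G.card → G₂.card = G.card → StepC G₁ G₂ μ

/-- START, the complete graph. -/
def ST_START : Prop :=
  ∀ w : ℕ, 1 ≤ w → GoodS (univ : Gr w) (fun _ _ => 8192 * w ^ 12)

/-! ### part 2: orders -/

/-- A partial order on `P`, of width at most `w`. -/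
structure PO (P : Set ℕ) (le : ℕ → ℕ → Prop) (w : ℕ) : Prop where
  sub : ∀ a b, le a b → a ∈ P ∧ b ∈ P
  refl : ∀ a ∈ P, le a a
  trans : ∀ a b c, le a b → le b c → le a c
  antisymm : ∀ a b, le a b → le b a → a = b
  width : ∀ s : Finset ℕ, (∀ a ∈ s, a ∈ P) → (∀ a ∈ s, ∀ b ∈ s, a ≠ b → ¬ le a b) → s.card ≤ w

/-- `X` is an antichain with `w` elements. -/
def Anti {w : ℕ} (P : Set ℕ) (le : ℕ → ℕ → Prop) (X : Fin w → ℕ) : Prop :=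
  (∀ i, X i ∈ P) ∧ ∀ i j, i ≠ j → ¬ le (X i) (X j)

/-- Every element of `X` is below an element of `Y`. -/
def Bel {w : ℕ} (le : ℕ → ℕ → Prop) (X Y : Fin w → ℕ) : Prop := ∀ a, ∃ b, le (X a) (Y b)

open Classical in
/-- The pairs in perfect matchings of the comparabilities between `X` and `Y`. -/
noncomputable def core {w : ℕ} (le : ℕ → ℕ → Prop) (X Y : Fin w → ℕ) : Gr w :=
  univ.filter (fun e => ∃ σ : Equiv.Perm (Fin w), σ e.1 = e.2 ∧ ∀ i, le (X i) (Y (σ i)))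

/-- CORE (Hall). -/
def ST_CORE : Prop :=
  ∀ (w : ℕ) (P : Set ℕ) (le : ℕ → ℕ → Prop) (X Y : Fin w → ℕ), PO P le w → Anti P le X →
    Anti P le Y → Bel le X Y → IsCore (core le X Y)

/-- BETW, the new level. -/
def ST_BETW : Prop :=
  ∀ (w : ℕ) (P : Set ℕ) (le : ℕ → ℕ → Prop) (L L' M : Fin w → ℕ) (n : ℕ), PO P le w →
    Anti P le L → Anti P le L' → Anti P le M → Bel le L L' → (∃ i, M i = n) →
    (∃ a, le (L a) n) → (∃ b, le n (L' b)) →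
    ∃ X : Fin w → ℕ, Anti P le X ∧ (∃ i, X i = n) ∧ Bel le L X ∧ Bel le X L'

/-- The number of colours at `a` and `b`. -/
def cnt {w N : ℕ} (p q : Fin N → Option (Fin w)) (a b : Fin w) : ℕ :=
  (univ.filter (fun c => p c = some a ∧ q c = some b)).card

/-- NAM, a routing of the named colours. -/
def ST_NAM : Prop :=
  ∀ (w N : ℕ) (G₁ G₂ : Gr w) (p q : Fin N → Option (Fin w)) (z : Fin w → Fin w → Fin w → ℕ),
    Route G₁ G₂ (cnt p q) z →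
    ∃ r : Fin N → Option (Fin w),
      (∀ c x, r c = some x → ∃ a b, p c = some a ∧ q c = some b ∧ (a, x) ∈ G₁ ∧ (x, b) ∈ G₂) ∧
      (∀ a x, cnt p r a x = ∑ b, z a x b) ∧ ∀ x b, cnt r q x b = ∑ a, z a x b

/-- A strategy with `N` colours for the routing game. -/
structure Strat (w N : ℕ) (Good : Gr w → (Fin w → Fin w → ℕ) → Prop) : Prop where
  start : ∃ c, w * w * c = N ∧ Good univ (fun _ _ => c)
  pos : ∀ G μ, IsCore G → Good G μ → ∀ a b, (a, b) ∈ G → 1 ≤ μ a b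
  split : ∀ G G₁ G₂ μ, IsCore G → IsCore G₁ → IsCore G₂ → comp G₁ G₂ ⊆ G → Good G μ →
    ∃ z, Route G₁ G₂ μ z ∧ Good G₁ (fun a x => ∑ b, z a x b) ∧ Good G₂ (fun x b => ∑ a, z a x b)

/-- S, the strategy theorem. -/
def ST_S : Prop := ∀ w : ℕ, 1 ≤ w → ∃ Good, Strat w (8192 * w ^ 14) Good

/-! ### part 3: computability -/

/-- SRCH, recursion by search. -/
def ST_SRCH : Prop :=
  ∀ (α β : Type) [Primcodable α] [Primcodable β] (R : α → ℕ → β → Prop) (upd : α → ℕ → β → α)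
    (s₀ : α) (Inv : ℕ → α → Prop),
    ComputablePred (fun t : (α × ℕ) × β => R t.1.1 t.1.2 t.2) →
    Computable (fun t : (α × ℕ) × β => upd t.1.1 t.1.2 t.2) →
    Inv 0 s₀ → (∀ n s, Inv n s → ∃ b, R s n b) →
    (∀ n s b, Inv n s → R s n b → Inv (n + 1) (upd s n b)) →
    ∃ f : ℕ → α, Computable f ∧ f 0 = s₀ ∧ ∀ n, Inv n (f n) ∧ ∃ b, R (f n) n b ∧
      f (n + 1) = upd (f n) n b

/-- BQT, bounded quantification over tuples. -/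
def ST_BQT : Prop :=
  ∀ (α : Type) [Primcodable α] (k : ℕ) (p : α → (Fin k → ℕ) → Prop),
    ComputablePred (fun t : α × (Fin k → ℕ) => p t.1 t.2) →
    ComputablePred (fun t : α × ℕ => ∃ X : Fin k → ℕ, (∀ i, X i ≤ t.2) ∧ p t.1 X)

/-- The width of `P` is at most `w`. -/
def WLe (P : Set ℕ) (le : ℕ → ℕ → Prop) (w : ℕ) : Prop :=
  ∀ s : Finset ℕ, (∀ a ∈ s, a ∈ P) → Pool.Agent.Helper3.DW.IsAnti le s → s.card ≤ w

/-- SPLIT, the greedy part. -/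
def ST_SPLIT : Prop :=
  ∀ (P : Set ℕ) (le : ℕ → ℕ → Prop) (w : ℕ), Pool.Agent.Helper3.DW.IsCompPoset P le →
    WLe P le (w + 1) → ∃ B : Set ℕ, B ⊆ P ∧ ComputablePred (fun n : ℕ => n ∈ B) ∧ WLe B le w ∧
      ∀ n ∈ P, n ∉ B → ∃ X : Fin (w + 1) → ℕ, Anti P le X ∧ ∃ i, X i = n

/-- `A` is covered by `k` computable chains. -/
def Cov (A : Set ℕ) (le : ℕ → ℕ → Prop) (k : ℕ) : Prop :=
  ∃ C : Fin k → Set ℕ, (∀ i, C i ⊆ A ∧ ComputablePred (fun n : ℕ => n ∈ C i) ∧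
    ∀ a ∈ C i, ∀ b ∈ C i, le a b ∨ le b a) ∧ A ⊆ ⋃ i, C i

/-- PARTA: the points in large antichains, when there are a least and a greatest level. -/
def ST_PARTA : Prop :=
  ∀ (w N : ℕ) (Good : Gr w → (Fin w → Fin w → ℕ) → Prop) (P A : Set ℕ) (le : ℕ → ℕ → Prop)
    (bot top : Fin w → ℕ), 1 ≤ w → Strat w N Good →
    Pool.Agent.Helper3.DW.IsCompPoset P le → WLe P le w → A ⊆ P →
    ComputablePred (fun n : ℕ => n ∈ A) →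
    (∀ n ∈ A, ∃ X : Fin w → ℕ, Anti P le X ∧ ∃ i, X i = n) → Anti P le bot → Anti P le top →
    (∀ i j, le (bot i) (top j)) → (∀ n ∈ A, (∃ a, le (bot a) n) ∧ ∃ b, le n (top b)) →
    Cov A le N

/-- PARTB: the points in large antichains. -/
def ST_PARTB : Prop :=
  ∀ (w N : ℕ) (Good : Gr w → (Fin w → Fin w → ℕ) → Prop) (P A : Set ℕ) (le : ℕ → ℕ → Prop),
    1 ≤ w → Strat w N Good →
    Pool.Agent.Helper3.DW.IsCompPoset P le → WLe P le w → A ⊆ P →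
    ComputablePred (fun n : ℕ => n ∈ A) →
    (∀ n ∈ A, ∃ X : Fin w → ℕ, Anti P le X ∧ ∃ i, X i = n) → Cov A le N

/-- The final theorem. -/
def ST_FINAL : Prop :=
  ∀ w : ℕ, 1 ≤ w → Pool.Agent.Helper3.DW.Suffices w (8192 * w ^ 15)

end Pool.Agent.Helper33.DP
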