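import Mathlib

/-!
# A polynomial upper bound for computable Dilworth decompositions (MP_fcb106_co)

Definitions for the routing game on cores and for the harmonic potential.
-/

set_option autoImplicit false

namespace Pool.Agent.Helper33.DP

open Finset

/-- Bipartite graphs between two copies of `Fin w` (rows, columns). -/
abbrev Gr (w : ℕ) := Finset (Fin w × Fin w)

/-- `σ` is a perfect matching of `G`. -/
def PM {w : ℕ} (G : Gr w) (σ : Equiv.Perm (Fin w)) : Prop := ∀ i, (i, σ i) ∈ G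

/-- `G` is a core: it has a perfect matching and every edge is in a perfect matching. -/
structure IsCore {w : ℕ} (G : Gr w) : Prop where
  ex : ∃ σ, PM G σ
  edge : ∀ a b, (a, b) ∈ G → ∃ σ, PM G σ ∧ σ a = b

open Classical in
/-- The composition of two graphs: first `G₁`, then `G₂`. -/
noncomputable def comp {w : ℕ} (G₁ G₂ : Gr w) : Gr w :=
  univ.filter (fun e => ∃ x, (e.1, x) ∈ G₁ ∧ (x, e.2) ∈ G₂)

/-- The transposed graph. -/
def tr {w : ℕ} (G : Gr w) : Gr w := G.map (Equiv.prodComm _ _).toEmbedding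

/-- The harmonic potential of the masses `μ` on `G` is at most `β`. -/
structure Bdd {w : ℕ} (G : Gr w) (μ : Fin w → Fin w → ℝ) (β : ℝ) : Prop where
  pos : ∀ a b, (a, b) ∈ G → 0 < μ a b
  le : ∀ σ, PM G σ → ∑ i, (μ i (σ i))⁻¹ ≤ β

/-- `D` is a doubly stochastic matrix with support in `G`. -/
structure DS {w : ℕ} (G : Gr w) (D : Fin w → Fin w → ℝ) : Prop where
  nonneg : ∀ a b, 0 ≤ D a b
  row : ∀ a, ∑ b, D a b = 1
  col : ∀ b, ∑ a, D a b = 1
  supp : ∀ a b, (a, b) ∉ G → D a b = 0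

/-- The sum of the absolute values. -/
def nrm {w : ℕ} (v : Fin w → ℝ) : ℝ := ∑ x, |v x|

/-- The sum of the distances. -/
def Phi {w : ℕ} (v : Fin w → ℝ) : ℝ := ∑ x, ∑ y, |v x - v y|

/-- The error matrix `δ` is small in the bilinear sense. -/
def ErrLe {w : ℕ} (δ : Fin w → Fin w → ℝ) (E : ℝ) : Prop :=
  ∀ q v : Fin w → ℝ, |∑ a, ∑ b, q a * δ a b * v b| ≤ E * (nrm q * Phi v + Phi q * nrm v)

/-- `z` is an integral routing of the colours `μ` through the middle level. -/
structure Route {w : ℕ} (G₁ G₂ : Gr w) (μ : Fin w → Fin w → ℕ)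
    (z : Fin w → Fin w → Fin w → ℕ) : Prop where
  supp : ∀ a x b, z a x b ≠ 0 → (a, x) ∈ G₁ ∧ (x, b) ∈ G₂
  sum : ∀ a b, (a, b) ∈ comp G₁ G₂ → ∑ x, z a x b = μ a b

/-! ### the parameters -/

/-- The smallest bound of the potential, for the complete graph. -/
noncomputable def be0 (w : ℕ) : ℝ := 1 / (8192 * (w : ℝ) ^ 11)

/-- The bound of the potential for a graph with `m` edges. -/
noncomputable def bet (w m : ℕ) : ℝ := be0 w * (1 + 1 / (w : ℝ) ^ 2) ^ (w ^ 2 - m)

/-- The small relative loss. -/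
noncomputable def yy (w : ℕ) : ℝ := 1 / (8 * (w : ℝ) ^ 2)

/-- The smallest entry of the routing matrices. -/
noncomputable def pp (w : ℕ) : ℝ := 1 / (8 * (w : ℝ) ^ 4)

/-- The bound of the errors. -/
noncomputable def EE (w : ℕ) : ℝ := 64 * (w : ℝ) ^ 8

/-- The good states of a gap. -/
def GoodS {w : ℕ} (G : Gr w) (μ : Fin w → Fin w → ℕ) : Prop :=
  (∀ a b, (a, b) ∉ G → μ a b = 0) ∧
  ∃ ρ : Fin w → Fin w → ℝ, (∀ a b, (a, b) ∉ G → ρ a b = 0) ∧ Bdd G ρ (bet w G.card) ∧
    ErrLe (fun a b => (μ a b : ℝ) - ρ a b) (EE w)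

end Pool.Agent.Helper33.DP
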