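import Pool.Agent.Helper8.DP.ESheet

/-! Row IND: induction on the height. -/

open scoped ContDiff
open Set Filter Topology

namespace Pool.Agent.Helper8.DP

open Pool.Agent.Helper94.UF

theorem ind_goodRank {Q : Type*} [TopologicalSpace Q] {r : Q → ℕ} {n : ℕ}
    (h : GoodRank r (n + 1)) : GoodRank (fun k : Pos r => r k - 1) n := by
  refine ⟨fun k => ?_, fun k U hU => ?_⟩
  · have h1 := h.1 (k : Q)
    have h2 := k.2
    change r (k : Q) - 1 < n
    omega
  · obtain ⟨U', hU', hUU⟩ := (mem_nhds_subtype _ k U).1 hU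
    obtain ⟨V, hV, hkV, hVU, hr⟩ := h.2 (k : Q) U' hU'
    refine ⟨Subtype.val ⁻¹' V, hV.preimage continuous_subtype_val, hkV,
      fun k' hk' => hUU (hVU hk'), fun k' hk' hne => ?_⟩
    have h1 := hr (k' : Q) hk' (fun hc => hne (Subtype.ext hc))
    have h2 := k'.2
    have h3 := k.2
    change r (k' : Q) - 1 < r (k : Q) - 1
    omega

theorem st_IND.{u} (hA : ST_APP.{u, u}) (hS : ST_STEP.{u, u}) : ST_IND.{u} := by
  intro n
  induction n with
  | zero =>
    intro Q _ _ _ r h
    have hQ : IsEmpty Q := ⟨fun k => absurd (h.1 k) (Nat.not_lt_zero _)⟩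
    have h0 : ∀ x : C(Q, ℝ), x = 0 := fun x => ContinuousMap.ext fun k => (hQ.false k).elim
    exact ⟨PEmpty, ⟨{
      Φ := fun _ _ => 0
      isC0 := fun x ε _ => Set.toFinite _
      smooth := fun γ => γ.elim
      L := 1
      L0 := one_pos
      upper := fun _ _ γ => γ.elim
      c := 1
      c0 := one_pos
      lower := fun x y r hr _ => by
        rw [h0 x, h0 y, sub_self, norm_zero, mul_zero]; exact hr }⟩⟩
  | succ n ih =>
    intro Q _ _ _ r h
    have hc : CompactSpace (Pos r) := isCompact_iff_compactSpace.1 (isClosed_ge h 1).isCompact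
    have hg := ind_goodRank h
    obtain ⟨Γ, ⟨E⟩⟩ := ih (Pos r) (fun k => r k - 1) hg
    have hApp := hA (Pos r) (fun k => r k - 1) n hg Γ E
    obtain ⟨E'⟩ := hS Q r (n + 1) h Γ E hApp
    exact ⟨_, ⟨E'⟩⟩

end Pool.Agent.Helper8.DP
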